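import Mathlib

/-! Kissing numbers: definitions and reduction to spherical codes. -/

open Filter Metric

namespace Pool.Agent.H613R2.LP

/-- `C` is the set of centres of closed unit balls of `ℝᵈ` with pairwise disjoint interiors, each of
which touches the closed unit ball about the origin and has interior disjoint from it. -/
def IsKissing (d : ℕ) (C : Finset (EuclideanSpace ℝ (Fin d))) : Prop :=
  (∀ x ∈ C, (closedBall x 1 ∩ closedBall (0 : EuclideanSpace ℝ (Fin d)) 1).Nonempty ∧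
    Disjoint (interior (closedBall x 1)) (interior (closedBall (0 : EuclideanSpace ℝ (Fin d)) 1))) ∧
  ∀ x ∈ C, ∀ y ∈ C, x ≠ y → Disjoint (interior (closedBall x 1)) (interior (closedBall y 1))

/-- The kissing number of the unit ball of `ℝᵈ`. -/
noncomputable def kissing (d : ℕ) : ℕ :=
  sSup {N | ∃ C : Finset (EuclideanSpace ℝ (Fin d)), IsKissing d C ∧ C.card = N}

theorem two_le_dist {E : Type*} [NormedAddCommGroup E] [NormedSpace ℝ E] {x y : E}
    (h : Disjoint (interior (closedBall x 1)) (interior (closedBall y 1))) : 2 ≤ dist x y := by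
  rw [interior_closedBall x one_ne_zero, interior_closedBall y one_ne_zero] at h
  by_contra hlt
  push Not at hlt
  have h1 : midpoint ℝ x y ∈ ball x 1 := by
    rw [mem_ball, dist_midpoint_left, Real.norm_ofNat]
    linarith
  have h2 : midpoint ℝ x y ∈ ball y 1 := by
    rw [mem_ball, dist_midpoint_right, Real.norm_ofNat]
    linarith
  exact Set.disjoint_left.mp h h1 h2

theorem code_of_kissing {d : ℕ} {C : Finset (EuclideanSpace ℝ (Fin d))} (hC : IsKissing d C) :
    ∃ D : Finset (EuclideanSpace ℝ (Fin d)), (∀ c ∈ D, ‖c‖ = 1) ∧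
      (∀ c ∈ D, ∀ c' ∈ D, c ≠ c' → 1 ≤ dist c c') ∧ D.card = C.card := by
  classical
  have hinj : Function.Injective (fun x : EuclideanSpace ℝ (Fin d) => (1 / 2 : ℝ) • x) :=
    smul_right_injective _ (by norm_num)
  refine ⟨C.image fun x => (1 / 2 : ℝ) • x, ?_, ?_, Finset.card_image_of_injective C hinj⟩
  · intro c hc
    obtain ⟨x, hx, rfl⟩ := Finset.mem_image.mp hc
    obtain ⟨⟨z, hz1, hz2⟩, h2⟩ := hC.1 x hx
    have h3 := two_le_dist h2
    rw [dist_zero_right] at h3
    rw [mem_closedBall] at hz1 hz2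
    have h4 : ‖x‖ ≤ 2 := by
      have := dist_triangle x z 0
      rw [dist_comm x z, dist_zero_right] at this
      linarith
    have h5 : ‖x‖ = 2 := le_antisymm h4 h3
    show ‖(1 / 2 : ℝ) • x‖ = 1
    rw [norm_smul, h5]
    norm_num
  · intro c hc c' hc' hne
    obtain ⟨x, hx, rfl⟩ := Finset.mem_image.mp hc
    obtain ⟨y, hy, rfl⟩ := Finset.mem_image.mp hc'
    have hxy : x ≠ y := fun h => hne (by rw [h])
    have h3 := two_le_dist (hC.2 x hx y hy hxy)
    show 1 ≤ dist ((1 / 2 : ℝ) • x) ((1 / 2 : ℝ) • y)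
    rw [dist_smul₀]
    rw [Real.norm_of_nonneg (by norm_num)]
    linarith

/-- From a bound for spherical codes to kissing numbers. -/
theorem kissing_of_codes {κ : ℝ} (hκ : 0 ≤ κ)
    (h : ∀ᶠ n : ℕ in atTop, ∀ C : Finset (EuclideanSpace ℝ (Fin n)), (∀ c ∈ C, ‖c‖ = 1) →
      (∀ c ∈ C, ∀ c' ∈ C, c ≠ c' → 1 ≤ dist c c') → (C.card : ℝ) ≤ (2 : ℝ) ^ (κ * n)) :
    (∀ᶠ d : ℕ in atTop, ∀ C : Finset (EuclideanSpace ℝ (Fin d)), IsKissing d C →
      (C.card : ℝ) ≤ (2 : ℝ) ^ (κ * d)) ∧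
    (∀ᶠ d : ℕ in atTop, (kissing d : ℝ) ≤ (2 : ℝ) ^ (κ * d)) ∧
    limsup (fun d : ℕ => Real.logb 2 (kissing d) / d) atTop ≤ κ := by
  have h1 : ∀ᶠ d : ℕ in atTop, ∀ C : Finset (EuclideanSpace ℝ (Fin d)), IsKissing d C →
      (C.card : ℝ) ≤ (2 : ℝ) ^ (κ * d) := by
    filter_upwards [h] with d hd C hC
    obtain ⟨D, hD1, hD2, hD3⟩ := code_of_kissing hC
    rw [← hD3]
    exact hd D hD1 hD2
  have h2 : ∀ᶠ d : ℕ in atTop, (kissing d : ℝ) ≤ (2 : ℝ) ^ (κ * d) := by
    filter_upwards [h1] with d hd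
    have hne : {N | ∃ C : Finset (EuclideanSpace ℝ (Fin d)), IsKissing d C ∧ C.card = N}.Nonempty :=
      ⟨0, ∅, ⟨by simp, by simp⟩, by simp⟩
    have hb : BddAbove {N | ∃ C : Finset (EuclideanSpace ℝ (Fin d)), IsKissing d C ∧ C.card = N} := by
      refine ⟨⌊(2 : ℝ) ^ (κ * d)⌋₊, ?_⟩
      rintro N ⟨C, hC, rfl⟩
      exact Nat.le_floor (hd C hC)
    obtain ⟨C, hC, hcard⟩ := Nat.sSup_mem hne hb
    unfold kissing
    rw [← hcard]
    exact hd C hC
  refine ⟨h1, h2, ?_⟩
  refine limsup_le_of_le ?_ ?_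
  · refine IsCoboundedUnder.of_frequently_ge (a := 0) (Eventually.frequently ?_)
    filter_upwards with d
    refine div_nonneg ?_ (Nat.cast_nonneg d)
    rcases Nat.eq_zero_or_pos (kissing d) with h0 | h0
    · simp [h0]
    · exact Real.logb_nonneg (by norm_num) (by exact_mod_cast h0)
  · filter_upwards [h2, eventually_gt_atTop 0] with d hd hd0
    have hd' : (0 : ℝ) < d := by exact_mod_cast hd0
    rw [div_le_iff₀ hd']
    rcases Nat.eq_zero_or_pos (kissing d) with h0 | h0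
    · rw [h0]
      simpa using mul_nonneg hκ hd'.le
    · rw [Real.logb_le_iff_le_rpow (by norm_num) (by exact_mod_cast h0)]
      exact hd

end Pool.Agent.H613R2.LP
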