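import Pool.Agent.H613R2.LP.Kiss
import Pool.Agent.H613R2.LP.KissDefs
import Pool.Agent.H613R2.LP.KData

/-! The kissing exponent is at most `0.397`, given the weighted product theorem. -/

open Filter

namespace Pool.Agent.H613R2.LP

open Pool.Agent.H390R2.LP Pool.Agent.H785R2.LP Pool.Agent.H232R2.LP

theorem codes_397 (iidw : IIDw) :
    ∀ᶠ n : ℕ in atTop, ∀ C : Finset (EuclideanSpace ℝ (Fin n)), (∀ c ∈ C, ‖c‖ = 1) →
      (∀ c ∈ C, ∀ c' ∈ C, c ≠ c' → 1 ≤ dist c c') →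
      (C.card : ℝ) ≤ (2 : ℝ) ^ ((397 / 1000 : ℝ) * n) := by
  obtain ⟨s, h1, h2⟩ := ksound kC _ 397 1000 (by norm_num) kC_rows kC_K kC_F kC_D kC_S kC_T kC_G
  refine coarse (codeBound_of_iidw iidw) s _ (397 / 1000) h1 ?_
  exact_mod_cast h2

theorem kissing_397 (iidw : IIDw) :
    (∀ᶠ d : ℕ in atTop, ∀ C : Finset (EuclideanSpace ℝ (Fin d)), IsKissing d C →
      (C.card : ℝ) ≤ (2 : ℝ) ^ ((397 / 1000 : ℝ) * d)) ∧
    (∀ᶠ d : ℕ in atTop, (kissing d : ℝ) ≤ (2 : ℝ) ^ ((397 / 1000 : ℝ) * d)) ∧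
    limsup (fun d : ℕ => Real.logb 2 (kissing d) / d) atTop ≤ 397 / 1000 :=
  kissing_of_codes (by norm_num) (codes_397 iidw)

end Pool.Agent.H613R2.LP
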