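import Pool.Agent.H613R2.LP.Refine2

/-! From a coarse one-site state to an exponential bound for spherical codes of angle `π/3`. -/

open Finset Filter

namespace Pool.Agent.H613R2.LP

open Pool.Agent.H390R2.LP Pool.Agent.H785R2.LP

/-- Reduction theorem for spherical codes (codes on the unit sphere with distances at least `sd`). -/
def CodeBound : Prop :=
  ∀ (Ω : Type) [Fintype Ω] [DecidableEq Ω] (q : ℕ) (s : Site Ω (Fin q)) (a hg α β sd ε : ℝ),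
    0 < hg → 0 < α → 0 < sd → α + hg < √(M2 s a hg) → √(M2 s a hg) + hg < β →
    s.E (gridf q hg) < (α * sd - hg) ^ 2 → hg < α * sd → 0 < ε →
    ∀ᶠ n : ℕ in atTop, ∀ C : Finset (EuclideanSpace ℝ (Fin n)), (∀ c ∈ C, ‖c‖ = 1) →
      (∀ c ∈ C, ∀ c' ∈ C, c ≠ c' → sd ≤ dist c c') →
      (C.card : ℝ) ≤ Real.exp (n * (1 / 2 * Real.log (2 * Real.pi * Real.exp 1) + Real.log β
        - Real.log hg - s.h + s.S + ε))

theorem coarse (cb : CodeBound) {Ω : Type} [Fintype Ω] [DecidableEq Ω] {q : ℕ}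
    (s : Site Ω (Fin q)) (a c : ℝ)
    (h1 : s.E (gridf q 1) + 1 / 6 < M2 s a 1 + 1 / 12)
    (h2 : s.S - s.h + 1 / 2 * Real.log (2 * Real.pi * Real.exp 1)
      + 1 / 2 * Real.log (M2 s a 1 + 1 / 12) < c * Real.log 2) :
    ∀ᶠ n : ℕ in atTop, ∀ C : Finset (EuclideanSpace ℝ (Fin n)), (∀ c ∈ C, ‖c‖ = 1) →
      (∀ c ∈ C, ∀ c' ∈ C, c ≠ c' → 1 ≤ dist c c') →
      (C.card : ℝ) ≤ (2 : ℝ) ^ (c * n) := by
  have hE0 := E_nonneg s (gridf q 1)
  set L := M2 s a 1 + 1 / 12 with hL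
  set E0 := s.E (gridf q 1) + 1 / 6 with hE0'
  have hLpos : 0 < L := by linarith
  -- limits
  have hinv : Tendsto (fun N : ℕ => 1 / (N : ℝ)) atTop (nhds 0) := tendsto_one_div_atTop_nhds_zero_nat
  have hinv2 : Tendsto (fun N : ℕ => 1 / (N : ℝ) ^ 2) atTop (nhds 0) := by
    have := hinv.pow 2
    simpa [div_pow] using this
  have hM : Tendsto (fun N : ℕ => M2 s a 1 + 1 / 12 * (1 - 1 / (N : ℝ) ^ 2)) atTop (nhds L) := by
    have : Tendsto (fun N : ℕ => M2 s a 1 + 1 / 12 * (1 - 1 / (N : ℝ) ^ 2)) atTop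
        (nhds (M2 s a 1 + 1 / 12 * (1 - 0))) :=
      tendsto_const_nhds.add (tendsto_const_nhds.mul (tendsto_const_nhds.sub hinv2))
    simpa [hL] using this
  have hS : Tendsto (fun N : ℕ => √(M2 s a 1 + 1 / 12 * (1 - 1 / (N : ℝ) ^ 2))) atTop (nhds (√L)) :=
    (Real.continuous_sqrt.tendsto L).comp hM
  have hA : Tendsto (fun N : ℕ => √(M2 s a 1 + 1 / 12 * (1 - 1 / (N : ℝ) ^ 2)) - 2 * (1 / (N : ℝ)))
      atTop (nhds (√L)) := by
    simpa using hS.sub (hinv.const_mul 2)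
  have hB : Tendsto (fun N : ℕ => √(M2 s a 1 + 1 / 12 * (1 - 1 / (N : ℝ) ^ 2)) + 2 * (1 / (N : ℝ)))
      atTop (nhds (√L)) := by
    simpa using hS.add (hinv.const_mul 2)
  have hsL : 0 < √L := Real.sqrt_pos.mpr hLpos
  have e1 : ∀ᶠ N : ℕ in atTop, 0 < √(M2 s a 1 + 1 / 12 * (1 - 1 / (N : ℝ) ^ 2)) - 2 * (1 / (N : ℝ)) :=
    hA.eventually (lt_mem_nhds hsL)
  have hA2 : Tendsto (fun N : ℕ => (√(M2 s a 1 + 1 / 12 * (1 - 1 / (N : ℝ) ^ 2)) - 2 * (1 / (N : ℝ)))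
      * 1 - 1 / (N : ℝ)) atTop (nhds (√L)) := by
    simpa using (hA.mul_const 1).sub hinv
  have e2 : ∀ᶠ N : ℕ in atTop, E0 < ((√(M2 s a 1 + 1 / 12 * (1 - 1 / (N : ℝ) ^ 2))
      - 2 * (1 / (N : ℝ))) * 1 - 1 / (N : ℝ)) ^ 2 := by
    have := hA2.pow 2
    rw [Real.sq_sqrt hLpos.le] at this
    exact this.eventually (lt_mem_nhds h1)
  have e2' : ∀ᶠ N : ℕ in atTop, 0 < (√(M2 s a 1 + 1 / 12 * (1 - 1 / (N : ℝ) ^ 2))
      - 2 * (1 / (N : ℝ))) * 1 - 1 / (N : ℝ) := hA2.eventually (lt_mem_nhds hsL)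
  have e3 : ∀ᶠ N : ℕ in atTop, s.S - s.h + 1 / 2 * Real.log (2 * Real.pi * Real.exp 1)
      + Real.log (√(M2 s a 1 + 1 / 12 * (1 - 1 / (N : ℝ) ^ 2)) + 2 * (1 / (N : ℝ)))
      < c * Real.log 2 := by
    have h3 : Tendsto (fun N : ℕ => s.S - s.h + 1 / 2 * Real.log (2 * Real.pi * Real.exp 1)
      + Real.log (√(M2 s a 1 + 1 / 12 * (1 - 1 / (N : ℝ) ^ 2)) + 2 * (1 / (N : ℝ)))) atTop
      (nhds (s.S - s.h + 1 / 2 * Real.log (2 * Real.pi * Real.exp 1) + Real.log (√L))) :=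
      tendsto_const_nhds.add ((Real.continuousAt_log hsL.ne').tendsto.comp hB)
    have h4 : Real.log (√L) = 1 / 2 * Real.log L := by
      rw [Real.log_sqrt hLpos.le]; ring
    rw [h4] at h3
    exact h3.eventually (gt_mem_nhds h2)
  obtain ⟨N, hN1, hN2, hN2', hN3, hNpos⟩ :=
    (e1.and (e2.and (e2'.and (e3.and (eventually_gt_atTop 0))))).exists
  obtain ⟨e, he, he0⟩ := exists_basis N hNpos
  have hN' : (0 : ℝ) < N := by exact_mod_cast hNpos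
  set s' := fine s N hNpos e he he0 with hs'
  have hM2 : M2 s' (a - (N - 1) / (2 * N)) (1 / N) = M2 s a 1 + 1 / 12 * (1 - 1 / (N : ℝ) ^ 2) :=
    M2_fine s N hNpos e he he0 a
  have hEf : s'.E (gridf (q * N) (1 / N)) = s.E (gridf q 1) + 1 / 6 * (1 - 1 / (N : ℝ) ^ 2) :=
    E_fine s N hNpos e he he0
  have hSf : s'.S = s.S := S_fine s N hNpos e he he0
  have hhf : s'.h = s.h + Real.log N := h_fine s N hNpos e he he0
  set m := √(M2 s a 1 + 1 / 12 * (1 - 1 / (N : ℝ) ^ 2)) with hm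
  set ε := c * Real.log 2 - (s.S - s.h + 1 / 2 * Real.log (2 * Real.pi * Real.exp 1)
      + Real.log (m + 2 * (1 / (N : ℝ)))) with hε
  have hεpos : 0 < ε := by rw [hε]; linarith
  have hNi : 0 < 1 / (N : ℝ) := by positivity
  have key := cb (Ω × Fin N) (q * N) s' (a - (N - 1) / (2 * N)) (1 / N) (m - 2 * (1 / (N : ℝ)))
    (m + 2 * (1 / (N : ℝ))) 1 ε hNi hN1 one_pos
    (by rw [hM2, ← hm]; linarith) (by rw [hM2, ← hm]; linarith)
    (by
      rw [hEf]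
      refine lt_of_le_of_lt ?_ hN2
      rw [hE0']
      have : (0 : ℝ) ≤ 1 / (N : ℝ) ^ 2 := by positivity
      linarith)
    (by linarith) hεpos
  filter_upwards [key] with n hn C hC1 hC2
  refine (hn C hC1 hC2).trans (le_of_eq ?_)
  rw [hSf, hhf, Real.rpow_def_of_pos (by norm_num : (0 : ℝ) < 2), hε, Real.log_div one_ne_zero hN'.ne',
    Real.log_one]
  congr 1
  ring

end Pool.Agent.H613R2.LP
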