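import Pool.Agent.H785R2.LP.Refine
import Pool.Agent.H390R2.LP.Iface2

/-! Second moment of the position under subdivision of cells. -/

open Finset

namespace Pool.Agent.H613R2.LP

open Pool.Agent.H390R2.LP Pool.Agent.H785R2.LP

variable {Ω : Type} [Fintype Ω] [DecidableEq Ω] {q : ℕ}

/-- averages with respect to the position distribution -/
theorem sum_P {X : Type} [Fintype X] [DecidableEq X] (s : Site Ω X) (F : X → ℝ) :
    ∑ x, s.P x * F x = ∑ c, s.g c * F (s.lab c) := by
  unfold Site.P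
  rw [← Finset.sum_fiberwise univ (fun c => s.lab c) (fun c => s.g c * F (s.lab c))]
  refine sum_congr rfl fun x _ => ?_
  rw [sum_mul]
  refine sum_congr rfl fun c hc => ?_
  rw [(mem_filter.mp hc).2]

theorem sum_P_one {X : Type} [Fintype X] [DecidableEq X] (s : Site Ω X) : ∑ x, s.P x = 1 := by
  have := sum_P s (fun _ => 1)
  simp only [mul_one] at this
  rw [this, g_sum]

theorem P_nonneg {X : Type} [Fintype X] [DecidableEq X] (s : Site Ω X) (x : X) : 0 ≤ s.P x :=
  sum_nonneg fun _ _ => g_nonneg s _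

/-- second moment of the position about `-a` (positions `0, …, q - 1`) -/
noncomputable def M2 (s : Site Ω (Fin q)) (a hg : ℝ) : ℝ := ∑ x, s.P x * (a + hg * (x : ℝ)) ^ 2

theorem M2_fine (s : Site Ω (Fin q)) (N : ℕ) (hN : 0 < N) (e : Fin N → Fin N → ℝ)
    (he : ∀ i j, ∑ k, e i k * e j k = if i = j then 1 else 0)
    (he0 : ∀ k, e ⟨0, hN⟩ k = (√(N : ℝ))⁻¹) (a : ℝ) :
    M2 (fine s N hN e he he0) (a - (N - 1) / (2 * N)) (1 / N) =
      M2 s a 1 + 1 / 12 * (1 - 1 / (N : ℝ) ^ 2) := by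
  have hN' : (0 : ℝ) < N := by exact_mod_cast hN
  unfold M2
  rw [sum_P, sum_P, Fintype.sum_prod_type]
  have hpos : ∀ (c : Ω) (k : Fin N), ((fine s N hN e he he0).lab (c, k) : ℝ)
      = N * (s.lab c : ℝ) + k := by
    intro c k
    show (((finProdFinEquiv (s.lab c, k) : Fin (q * N)) : ℕ) : ℝ) = _
    rw [finProdFinEquiv_apply_val]
    push_cast
    ring
  have hone : ∀ c : Ω, ∑ k : Fin N, (fine s N hN e he he0).g (c, k) *
      (a - (N - 1) / (2 * N) + 1 / N * ((fine s N hN e he he0).lab (c, k) : ℝ)) ^ 2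
      = s.g c * ((a + 1 * (s.lab c : ℝ)) ^ 2 + 1 / 12 * (1 - 1 / (N : ℝ) ^ 2)) := by
    intro c
    simp only [hpos]
    have : ∀ k : Fin N, (fine s N hN e he he0).g (c, k) *
        (a - (N - 1) / (2 * N) + 1 / N * (N * (s.lab c : ℝ) + k)) ^ 2
        = s.g c / N * ((a + s.lab c - (N - 1) / (2 * N)) ^ 2
          + 2 * (a + s.lab c - (N - 1) / (2 * N)) / N * (k : ℝ) + (k : ℝ) ^ 2 / N ^ 2) := by
      intro k
      show s.g c / N * _ = _
      field_simp
      ring
    simp only [this]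
    rw [← mul_sum, sum_add_distrib, sum_add_distrib, sum_const, card_univ, Fintype.card_fin,
      nsmul_eq_mul, ← sum_div, ← mul_sum, sum_fin_id, sum_fin_sq]
    field_simp
    ring
  simp only [hone]
  simp only [mul_add, sum_add_distrib]
  rw [← sum_mul, g_sum, one_mul]

end Pool.Agent.H613R2.LP
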