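import Pool.Agent.H232R2.LP.Sound
import Pool.Agent.H613R2.LP.Refine2

/-! Soundness of the certificate for the kissing exponent. -/

open Finset Real

namespace Pool.Agent.H613R2.LP

open Pool.Agent.H390R2.LP Pool.Agent.H785R2.LP Pool.Agent.H232R2.LP

/-- first moment of the position -/
def checkT (c : Cert) (T1 : ℤ) : Bool :=
  sumW (fun k => (k : ℤ)) (fun ρ => ρ.p + ρ.s) 0 c.rows == T1

/-- `4 n` times the second moment about the centre of the grid -/
def V4 (c : Cert) (T1 : ℤ) : ℤ :=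
  4 * c.T2 - 4 * ((c.rows.length : ℤ) - 1) * T1 + ((c.rows.length : ℤ) - 1) ^ 2 * c.n

def checkK2 (c : Cert) (T1 : ℤ) (num den : ℕ) : Bool :=
  decide (0 < 3 * V4 c T1 + c.n) && decide (24 * (c.T2 - c.F2) + c.n < 3 * V4 c T1) &&
  Nat.ble ((85397343 * (3 * V4 c T1 + c.n)).toNat ^ c.m)
    (2 ^ c.g * (60000000 * c.n).toNat ^ c.m) &&
  decide (den * (2 * (c.HS - c.SS) + c.g * c.n) < 2 * (num : ℤ) * c.n * c.m)

theorem log_bound {W n : ℝ} {g m : ℕ} (hW : 0 < W) (hn : 0 < n) (hm : 0 < m)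
    (h5 : (85397343 * W) ^ m ≤ 2 ^ g * (60000000 * n) ^ m) :
    Real.log (2 * π * Real.exp 1) + Real.log (W / (12 * n)) ≤ (g : ℝ) / m * Real.log 2 := by
  have hπ := Real.pi_pos
  have he := Real.exp_pos 1
  have hA : 0 < 2 * π * Real.exp 1 := by positivity
  have hB : 0 < W / (12 * n) := by positivity
  rw [← Real.log_mul hA.ne' hB.ne']
  have h2 : Real.log (2 * π * Real.exp 1 * (W / (12 * n)))
      ≤ Real.log (85397343 / 10000000 * W / (6 * n)) := by
    apply Real.log_le_log (by positivity)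
    have h3 := mul_le_mul_of_nonneg_right pi_mul_e_lt.le (show 0 ≤ W / (6 * n) by positivity)
    calc 2 * π * Real.exp 1 * (W / (12 * n)) = π * Real.exp 1 * (W / (6 * n)) := by
          field_simp; ring
      _ ≤ 85397343 / 10000000 * (W / (6 * n)) := h3
      _ = 85397343 / 10000000 * W / (6 * n) := by ring
  refine h2.trans ?_
  have e3 : 85397343 / 10000000 * W / (6 * n) = (85397343 * W) / (60000000 * n) := by
    field_simp
    ring
  apply log_le_of_pow_le (by positivity) hm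
  rw [e3, div_pow, div_le_iff₀ (by positivity)]
  exact h5

theorem ksound (c : Cert) (T1 : ℤ) (num den : ℕ) (hden : 0 < den)
    (hrows : checkRows c = true) (hKc : checkK c = true) (hF : checkF c = true)
    (hD : checkD c = true) (hS : checkS c = true) (hT : checkT c T1 = true)
    (hG : checkK2 c T1 num den = true) :
    ∃ s : Site (Fin c.rows.length × Fin 2) (Fin c.rows.length),
      s.E (gridf c.rows.length 1) + 1 / 6 < M2 s (-((c.rows.length : ℝ) - 1) / 2) 1 + 1 / 12 ∧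
      s.S - s.h + 1 / 2 * Real.log (2 * π * Real.exp 1)
        + 1 / 2 * Real.log (M2 s (-((c.rows.length : ℝ) - 1) / 2) 1 + 1 / 12)
        < (num : ℝ) / den * Real.log 2 := by
  obtain ⟨st, hSbound, hhbound, hP, hE⟩ := c.base hrows hKc hF hD hS
  refine ⟨st, ?_⟩
  simp only [checkK, Bool.and_eq_true, decide_eq_true_eq] at hKc
  obtain ⟨⟨⟨⟨-, hm⟩, hn⟩, -⟩, -⟩ := hKc
  simp only [checkS, Bool.and_eq_true, beq_iff_eq] at hS
  obtain ⟨⟨⟨⟨⟨-, -⟩, hS3⟩, -⟩, hS5⟩, -⟩ := hS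
  simp only [checkT, beq_iff_eq] at hT
  simp only [checkK2, Bool.and_eq_true, decide_eq_true_eq, Nat.ble_eq] at hG
  obtain ⟨⟨⟨hG0, hG1⟩, hG2⟩, hG3⟩ := hG
  have hnR : (0 : ℝ) < (c.n : ℝ) := by exact_mod_cast hn
  have hmR : (0 : ℝ) < (c.m : ℝ) := by exact_mod_cast hm
  have hdenR : (0 : ℝ) < (den : ℝ) := by exact_mod_cast hden
  -- second moment
  have hsum0 : ∑ x : Fin c.rows.length, ((c.rows[x].p : ℝ) + (c.rows[x].s : ℝ)) = c.n := by
    rw [← hS3, sumRow_eq]
    push_cast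
    rfl
  have hsum1 : ∑ x : Fin c.rows.length, ((x.val : ℝ)) * ((c.rows[x].p : ℝ) + (c.rows[x].s : ℝ)) = T1 := by
    rw [← hT, sumW_eq]
    push_cast
    refine Finset.sum_congr rfl fun x _ => ?_
    simp only [Fin.getElem_fin, zero_add]
    try ring
  have hsum2 : ∑ x : Fin c.rows.length, ((x.val : ℝ)) ^ 2 * ((c.rows[x].p : ℝ) + (c.rows[x].s : ℝ))
      = c.T2 := by
    rw [← hS5, sumW_eq]
    push_cast
    refine Finset.sum_congr rfl fun x _ => ?_
    simp only [Fin.getElem_fin, zero_add]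
    ring
  have hM : M2 st (-((c.rows.length : ℝ) - 1) / 2) 1 = (V4 c T1 : ℝ) / (4 * c.n) := by
    unfold M2
    have h1 : ∀ x : Fin c.rows.length, st.P x * (-((c.rows.length : ℝ) - 1) / 2 + 1 * (x : ℝ)) ^ 2
        = (1 / (4 * c.n)) * (4 * (((x.val : ℝ)) ^ 2 * ((c.rows[x].p : ℝ) + (c.rows[x].s : ℝ)))
          - 4 * ((c.rows.length : ℝ) - 1) * (((x.val : ℝ)) * ((c.rows[x].p : ℝ) + (c.rows[x].s : ℝ)))
          + ((c.rows.length : ℝ) - 1) ^ 2 * ((c.rows[x].p : ℝ) + (c.rows[x].s : ℝ))) := by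
      intro x
      rw [hP x]
      field_simp
      ring
    simp_rw [h1]
    rw [← mul_sum, sum_add_distrib, sum_sub_distrib, ← mul_sum, ← mul_sum, ← mul_sum, hsum0,
      hsum1, hsum2]
    unfold V4
    push_cast
    field_simp
  have hM12 : M2 st (-((c.rows.length : ℝ) - 1) / 2) 1 + 1 / 12 = (3 * (V4 c T1 : ℝ) + c.n) / (12 * c.n) := by
    rw [hM]; field_simp; ring
  have hgrid : (gridf c.rows.length 1 : Unit → Fin c.rows.length → ℝ) = (fun (_ : Unit) (x : Fin c.rows.length) => (x.val : ℝ)) := by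
    funext _ x; simp [gridf]
  constructor
  · rw [hM12, hgrid, hE, lt_div_iff₀ (by positivity)]
    have h2 : (24 : ℝ) * ((c.T2 : ℝ) - c.F2) + c.n < 3 * (V4 c T1 : ℝ) := by exact_mod_cast hG1
    have h3 : (2 / (c.n : ℝ) * ((c.T2 : ℝ) - c.F2) + 1 / 6) * (12 * c.n)
        = 24 * ((c.T2 : ℝ) - c.F2) + 2 * c.n := by
      field_simp
      ring
    rw [h3]
    linarith
  · rw [hM12]
    have hWpos : (0 : ℝ) < 3 * (V4 c T1 : ℝ) + c.n := by exact_mod_cast hG0
    have hWz : 0 ≤ 85397343 * (3 * V4 c T1 + c.n) := by omega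
    have hnz : 0 ≤ 60000000 * c.n := by omega
    have e1 := toNat_castR hWz
    have e2 := toNat_castR hnz
    have h5 : (85397343 * (3 * (V4 c T1 : ℝ) + c.n)) ^ c.m
        ≤ 2 ^ c.g * (60000000 * (c.n : ℝ)) ^ c.m := by
      have hG2' : (((85397343 * (3 * V4 c T1 + c.n)).toNat : ℕ) : ℝ) ^ c.m
        ≤ 2 ^ c.g * (((60000000 * c.n).toNat : ℕ) : ℝ) ^ c.m := by exact_mod_cast hG2
      rw [e1, e2] at hG2'
      push_cast at hG2'
      exact hG2'
    have hlog := log_bound hWpos hnR hm h5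
    have hfin : (den : ℝ) * (2 * ((c.HS : ℝ) - c.SS) + c.g * c.n) < 2 * num * c.n * c.m := by
      exact_mod_cast hG3
    have hlog2 : 0 < Real.log 2 := Real.log_pos (by norm_num)
    have key : (c.HS : ℝ) / (c.n * c.m) - (c.SS : ℝ) / (c.n * c.m) + 1 / 2 * ((c.g : ℝ) / c.m)
        < (num : ℝ) / den := by
      rw [lt_div_iff₀ hdenR]
      have : ((c.HS : ℝ) / (c.n * c.m) - (c.SS : ℝ) / (c.n * c.m) + 1 / 2 * ((c.g : ℝ) / c.m)) * den
          = (den * (2 * ((c.HS : ℝ) - c.SS) + c.g * c.n)) / (2 * c.n * c.m) := by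
        field_simp
      rw [this, div_lt_iff₀ (by positivity)]
      linarith
    have key2 := mul_lt_mul_of_pos_right key hlog2
    have key3 : (c.HS : ℝ) / (c.n * c.m) * Real.log 2 - (c.SS : ℝ) / (c.n * c.m) * Real.log 2
        + 1 / 2 * ((c.g : ℝ) / c.m * Real.log 2) < (num : ℝ) / den * Real.log 2 := by
      calc _ = ((c.HS : ℝ) / (c.n * c.m) - (c.SS : ℝ) / (c.n * c.m) + 1 / 2 * ((c.g : ℝ) / c.m))
            * Real.log 2 := by ring
        _ < _ := key2
    linarith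

end Pool.Agent.H613R2.LP
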