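import Pool.Agent.H613R2.LP.Coarse
import Pool.Agent.H703R2.LP.Code

/-! The bound for kissing numbers from a coarse one-site state. -/

open Finset Filter

namespace Pool.Agent.H613R2.LP

open Pool.Agent.H390R2.LP Pool.Agent.H785R2.LP

theorem codeBound_of_iidw (iidw : IIDw) : CodeBound := by
  intro Ω _ _ q s a hg α β sd ε hhg hα hsd h1 h2 h3 h4 hε
  obtain ⟨n0, hn0⟩ := Pool.Agent.H703R2.LP.code_bound iidw s hhg hα.le h1 h2 hsd.le h4 h3 hε
  filter_upwards [eventually_ge_atTop n0] with n hn C hC1 hC2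
  exact hn0 n hn C hC1 hC2

end Pool.Agent.H613R2.LP
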